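import Mathlib

/-! # The curse of dimensionality for the `L₁`-discrepancy with non-negative weights

The problem `MP_2335a4_an`: integration on `F_{d,∞}` with non-negative quadrature formulas suffers from
the curse of dimensionality, for every error level `ε < 1`.

Proof: let `ν` be the probability measure with density `∏ 2 x_j` on the cube. For each node `t` the uniform
distribution on the box `[t, 1]` has a likelihood ratio of at least `(21/20)^d` with respect to `ν`, outside a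
set of proportion `r^d`, `r < 1`. The test function is `1` on the union of these typical sets and `-1` elsewhere.
-/

set_option autoImplicit false

open MeasureTheory Set

namespace Pool.Agent.Results.MP_2335a4_an.CurseNonnegH80

variable {d N : ℕ}

/-- The unit ball of `F_{d,∞}`: the functions on `[0,1]^d` which vanish whenever a coordinate is `1` and whose
mixed derivative is bounded by `1`, that is `f t = ∫_{[t,1]} g` for a measurable `g` with `|g| ≤ 1`
(`g` is the mixed derivative of `f` up to the sign `(-1)^d`). -/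
def UnitBall (d : ℕ) : Set ((Fin d → ℝ) → ℝ) :=
  {f | ∃ g : (Fin d → ℝ) → ℝ, Measurable g ∧ (∀ x, |g x| ≤ 1) ∧
    ∀ t ∈ Icc (0 : Fin d → ℝ) 1, f t = ∫ x in Icc t 1, g x}

/-- The set of the errors `|I(f) - A(f)|` of the quadrature formula `A(f) = ∑ a_k f(t_k)` on the unit ball. -/
def errors (t : Fin N → Fin d → ℝ) (a : Fin N → ℝ) : Set ℝ :=
  {e | ∃ f ∈ UnitBall d, e = |(∫ x in Icc (0 : Fin d → ℝ) 1, f x) - ∑ k, a k * f (t k)|}

/-- The worst case error `e(A)` of the quadrature formula. -/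
noncomputable def wce (t : Fin N → Fin d → ℝ) (a : Fin N → ℝ) : ℝ := sSup (errors t a)

/-- The generalized `L₁`-discrepancy `∫_{[0,1]^d} |∑ a_k 1_{[0,x)}(t_k) - x_1 ⋯ x_d| dx`. -/
noncomputable def disc (t : Fin N → Fin d → ℝ) (a : Fin N → ℝ) : ℝ :=
  ∫ x in Icc (0 : Fin d → ℝ) 1, |(∑ k, a k * (if ∀ j, t k j < x j then (1 : ℝ) else 0)) - ∏ j, x j|

/-- `N⁺(ε, d)`: the least `N` such that some formula with `N` nodes in `[0,1)^d` and non-negative weights has
worst case error at most `ε 2^{-d}`. -/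
noncomputable def Nplus (ε : ℝ) (d : ℕ) : ℕ∞ :=
  ⨅ (N : ℕ) (_ : ∃ (t : Fin N → Fin d → ℝ) (a : Fin N → ℝ), (∀ k j, 0 ≤ t k j ∧ t k j < 1) ∧
    (∀ k, 0 ≤ a k) ∧ wce t a ≤ ε * (1 / 2) ^ d), (N : ℕ∞)

/-! ### Integrals over boxes -/

lemma box_prod (t : Fin d → ℝ) (f : Fin d → ℝ → ℝ) :
    ∫ x in Icc t 1, ∏ i, f i (x i) = ∏ i, ∫ s in Icc (t i) 1, f i s := by
  have h1 : (volume : Measure (Fin d → ℝ)).restrict (Icc t 1) =
      Measure.pi (fun i => (volume : Measure ℝ).restrict (Icc (t i) 1)) := by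
    rw [← Measure.restrict_pi_pi, show Icc t 1 = Set.pi univ fun i => Icc (t i) ((1 : Fin d → ℝ) i) from
      (Set.pi_univ_Icc t 1).symm]
    rfl
  rw [h1]
  exact integral_fintype_prod_eq_prod f

instance (t : Fin d → ℝ) : IsFiniteMeasure ((volume : Measure (Fin d → ℝ)).restrict (Icc t 1)) :=
  ⟨by rw [Measure.restrict_apply_univ]; exact isCompact_Icc.measure_lt_top⟩

lemma intOn (t : Fin d → ℝ) {f : (Fin d → ℝ) → ℝ} (hf : Measurable f) (C : ℝ)
    (hC : ∀ x ∈ Icc t 1, |f x| ≤ C) : IntegrableOn f (Icc t 1) := by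
  refine memLp_one_iff_integrable.1 (MemLp.of_bound hf.aestronglyMeasurable C ?_)
  rw [ae_restrict_iff' measurableSet_Icc]
  exact ae_of_all _ hC

lemma int_one {s : ℝ} (hs : s ≤ 1) : ∫ _x in Icc s 1, (1 : ℝ) = 1 - s := by
  rw [integral_Icc_eq_integral_Ioc, ← intervalIntegral.integral_of_le hs]
  simp

lemma int_box {t : Fin d → ℝ} (ht : t ≤ 1) : ∫ _x in Icc t 1, (1 : ℝ) = ∏ j, (1 - t j) := by
  have := box_prod t (fun _ _ => 1)
  simp only [Finset.prod_const_one] at this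
  rw [this]
  exact Finset.prod_congr rfl fun j _ => int_one (ht j)

lemma int_prod : ∫ x in Icc (0 : Fin d → ℝ) 1, ∏ j, x j = (1 / 2) ^ d := by
  rw [box_prod (0 : Fin d → ℝ) (fun _ s => s)]
  have : ∀ i : Fin d, ∫ s in Icc ((0 : Fin d → ℝ) i) 1, s = 1 / 2 := by
    intro i
    rw [Pi.zero_apply, integral_Icc_eq_integral_Ioc, ← intervalIntegral.integral_of_le zero_le_one,
      integral_id]
    norm_num
  rw [Finset.prod_congr rfl fun i _ => this i]
  simp

/-- the polynomial inequality -/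
lemma poly {u : ℝ} (h0 : 0 ≤ u) (h1 : u ≤ 1) : (8 / 9) * (1 - u ^ 3) ^ 2 ≤ (93 / 100) * (1 - u ^ 2) := by
  have key : 0 ≤ (93 / 100) * (1 + u) - (8 / 9) * ((1 - u) * (1 + u + u ^ 2) ^ 2) := by
    nlinarith [mul_nonneg h0 (sq_nonneg (u - 38 / 100)), sq_nonneg (u - 38 / 100),
      mul_nonneg h0 (sq_nonneg (u ^ 2 - 38 / 100 * u)), sq_nonneg (u ^ 2 - 38 / 100 * u),
      mul_nonneg h0 (sq_nonneg (u ^ 2 + 38 / 100 * u - 2 * (38 / 100) ^ 2)),
      mul_nonneg (pow_nonneg h0 3) (sq_nonneg (u - 38 / 100)), pow_nonneg h0 3, pow_nonneg h0 5]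
  have h2 := mul_nonneg (sub_nonneg.2 h1) key
  nlinarith [h2]

lemma int_sqrt {s : ℝ} (h0 : 0 ≤ s) (h1 : s ≤ 1) :
    ∫ x in Icc s 1, √x = 2 / 3 * (1 - √s ^ 3) := by
  rw [integral_Icc_eq_integral_Ioc, ← intervalIntegral.integral_of_le h1]
  simp_rw [Real.sqrt_eq_rpow]
  rw [integral_rpow (Or.inl (by norm_num)), Real.one_rpow]
  have : s ^ ((1 : ℝ) / 2 + 1) = (s ^ ((1 : ℝ) / 2)) ^ 3 := by
    rw [← Real.rpow_natCast, ← Real.rpow_mul h0]; norm_num
  rw [this]; ring

/-- `r = √(1953/2000) < 1` -/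
noncomputable def r : ℝ := √(1953 / 2000)

lemma r_pos : 0 < r := Real.sqrt_pos.2 (by norm_num)

lemma r_sq : r ^ 2 = 1953 / 2000 := Real.sq_sqrt (by norm_num)

/-- the one dimensional estimate -/
lemma oneDim {s : ℝ} (h0 : 0 ≤ s) (h1 : s ≤ 1) :
    ∫ x in Icc s 1, √(21 / 20 * (2 * (1 - s) * x)) ≤ r * (1 - s) := by
  have e : ∀ x : ℝ, √(21 / 20 * (2 * (1 - s) * x)) = √(21 / 20 * (2 * (1 - s))) * √x := by
    intro x
    rw [← Real.sqrt_mul (by nlinarith)]
    congr 1; ring
  simp_rw [e]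
  rw [integral_const_mul, int_sqrt h0 h1]
  have hu0 : 0 ≤ √s := Real.sqrt_nonneg s
  have hu1 : √s ≤ 1 := Real.sqrt_le_one.2 h1
  have hus : √s ^ 2 = s := Real.sq_sqrt h0
  have hp := poly hu0 hu1
  rw [hus] at hp
  have h3 : √s ^ 3 ≤ 1 := pow_le_one₀ hu0 hu1
  have h4 : 0 ≤ √(21 / 20 * (2 * (1 - s))) * (2 / 3 * (1 - √s ^ 3)) :=
    mul_nonneg (Real.sqrt_nonneg _) (by linarith)
  refine (pow_le_pow_iff_left₀ h4 (mul_nonneg r_pos.le (sub_nonneg.2 h1)) two_ne_zero).1 ?_
  rw [mul_pow, mul_pow, mul_pow, r_sq, Real.sq_sqrt (by nlinarith)]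
  nlinarith [mul_le_mul_of_nonneg_left hp (sub_nonneg.2 h1)]

/-! ### The typical sets -/

/-- the likelihood ratio of `ν` with respect to the uniform distribution on `[t, 1]` -/
noncomputable def lik (t x : Fin d → ℝ) : ℝ := ∏ j, (2 * (1 - t j) * x j)

lemma measurable_lik (t : Fin d → ℝ) : Measurable (lik t) :=
  Finset.measurable_prod _ fun j _ => (measurable_pi_apply j).const_mul _

/-- the typical set of the node `t` -/
def typ (t : Fin d → ℝ) : Set (Fin d → ℝ) := {x | x ∈ Icc t 1 ∧ lik t x ≤ ((21 / 20 : ℝ) ^ d)⁻¹}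

lemma measurableSet_typ (t : Fin d → ℝ) : MeasurableSet (typ t) :=
  measurableSet_Icc.inter (measurableSet_le (measurable_lik t) measurable_const)

/-- the part of the box outside the typical set is small -/
lemma bad_le {t : Fin d → ℝ} (h0 : 0 ≤ t) (h1 : t ≤ 1) {S : Set (Fin d → ℝ)} (hS : MeasurableSet S)
    (hSt : typ t ⊆ S) :
    ∫ x in Icc t 1, Sᶜ.indicator (fun _ => (1 : ℝ)) x ≤ r ^ d * ∏ j, (1 - t j) := by
  have hm : Measurable fun x : Fin d → ℝ => ∏ j, √(21 / 20 * (2 * (1 - t j) * x j)) :=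
    Finset.measurable_prod _ fun j _ => (((measurable_pi_apply j).const_mul _).const_mul _).sqrt
  calc ∫ x in Icc t 1, Sᶜ.indicator (fun _ => (1 : ℝ)) x
      ≤ ∫ x in Icc t 1, ∏ j, √(21 / 20 * (2 * (1 - t j) * x j)) := by
        refine setIntegral_mono_on ?_ ?_ measurableSet_Icc fun x hx => ?_
        · refine intOn t (measurable_const.indicator hS.compl) 1 fun x _ => ?_
          by_cases hx : x ∈ Sᶜ
          · simp [indicator_of_mem hx]
          · simp [indicator_of_notMem hx]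
        · refine intOn t hm (3 ^ d) fun x hx => ?_
          rw [Finset.abs_prod]
          calc ∏ j, |√(21 / 20 * (2 * (1 - t j) * x j))| ≤ ∏ _j : Fin d, (3 : ℝ) := by
                refine Finset.prod_le_prod (fun _ _ => abs_nonneg _) fun j _ => ?_
                rw [abs_of_nonneg (Real.sqrt_nonneg _)]
                refine Real.sqrt_le_iff.2 ⟨by norm_num, ?_⟩
                have h2 := h0 j
                have h3 := hx.2 j
                have h4 := (h0 j).trans (hx.1 j)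
                simp only [Pi.zero_apply, Pi.one_apply] at h2 h3 h4
                nlinarith [mul_nonneg h2 h4]
            _ = 3 ^ d := by simp
        · by_cases hxS : x ∈ Sᶜ
          · rw [indicator_of_mem hxS]
            have h2 : x ∉ typ t := fun h => hxS (hSt h)
            have h3 : ((21 / 20 : ℝ) ^ d)⁻¹ < lik t x := by
              by_contra h
              exact h2 ⟨hx, not_lt.1 h⟩
            have h4 : (0 : ℝ) < (21 / 20 : ℝ) ^ d := by positivity
            have h5 : ∏ j, √(21 / 20 * (2 * (1 - t j) * x j)) = √((21 / 20) ^ d * lik t x) := by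
              unfold lik
              rw [← Real.sqrt_prod]
              · congr 1
                rw [Finset.prod_mul_distrib, Finset.prod_const, Finset.card_univ, Fintype.card_fin]
              · intro j _
                have h6 := h1 j
                have h7 := (h0 j).trans (hx.1 j)
                simp only [Pi.zero_apply, Pi.one_apply] at h6 h7
                have h8 : 0 ≤ (1 - t j) * x j := mul_nonneg (by linarith) h7
                nlinarith
            rw [h5]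
            refine Real.one_le_sqrt.2 ?_
            have := mul_lt_mul_of_pos_left h3 h4
            rw [mul_inv_cancel₀ h4.ne'] at this
            exact this.le
          · rw [indicator_of_notMem hxS]
            exact Finset.prod_nonneg fun _ _ => Real.sqrt_nonneg _
    _ = ∏ j, ∫ x in Icc (t j) 1, √(21 / 20 * (2 * (1 - t j) * x)) :=
        box_prod t (fun j x => √(21 / 20 * (2 * (1 - t j) * x)))
    _ ≤ ∏ j, (r * (1 - t j)) := by
        refine Finset.prod_le_prod (fun j _ => ?_) fun j _ => oneDim (h0 j) (h1 j)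
        exact integral_nonneg fun _ => Real.sqrt_nonneg _
    _ = r ^ d * ∏ j, (1 - t j) := by
        rw [Finset.prod_mul_distrib]
        simp

/-- the typical set has small mass for the measure `∏ x_j dx` -/
lemma typ_mass {t : Fin d → ℝ} (h0 : 0 ≤ t) (h1 : ∀ j, t j < 1) :
    ∫ x in Icc (0 : Fin d → ℝ) 1, (typ t).indicator (fun x => ∏ j, x j) x ≤
      ((21 / 20 : ℝ) ^ d)⁻¹ * (1 / 2) ^ d := by
  have hle : t ≤ 1 := fun j => (h1 j).le
  have hpos : 0 < ∏ j, (1 - t j) := Finset.prod_pos fun j _ => sub_pos.2 (h1 j)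
  have hmp : Measurable fun x : Fin d → ℝ => ∏ j, x j :=
    Finset.measurable_prod _ fun j _ => measurable_pi_apply j
  have hsub : Icc t 1 ⊆ Icc (0 : Fin d → ℝ) 1 := Icc_subset_Icc_left h0
  rw [setIntegral_indicator (measurableSet_typ t)]
  have e1 : Icc (0 : Fin d → ℝ) 1 ∩ typ t = typ t :=
    inter_eq_right.2 fun x hx => hsub hx.1
  rw [e1]
  have hc : (0 : ℝ) ≤ ((21 / 20 : ℝ) ^ d)⁻¹ * (1 / 2) ^ d * (∏ j, (1 - t j))⁻¹ := by positivity
  have hb : ∀ x ∈ typ t, ∏ j, x j ≤ ((21 / 20 : ℝ) ^ d)⁻¹ * (1 / 2) ^ d * (∏ j, (1 - t j))⁻¹ := by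
    intro x hx
    have h2 : lik t x = (2 ^ d * ∏ j, (1 - t j)) * ∏ j, x j := by
      unfold lik
      rw [Finset.prod_mul_distrib, Finset.prod_mul_distrib]
      simp
    have h3 := hx.2
    rw [h2] at h3
    have h4 : (0 : ℝ) < 2 ^ d * ∏ j, (1 - t j) := by positivity
    have h5 : ∏ j, x j ≤ ((21 / 20 : ℝ) ^ d)⁻¹ / (2 ^ d * ∏ j, (1 - t j)) := by
      rw [le_div_iff₀ h4]
      linarith
    refine h5.trans (le_of_eq ?_)
    rw [one_div, inv_pow]
    field_simp
  calc ∫ x in typ t, ∏ j, x j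
      ≤ ∫ _x in typ t, ((21 / 20 : ℝ) ^ d)⁻¹ * (1 / 2) ^ d * (∏ j, (1 - t j))⁻¹ := by
        refine setIntegral_mono_on ?_ ?_ (measurableSet_typ t) hb
        · refine (intOn t hmp 1 fun x hx => ?_).mono_set fun x hx => hx.1
          have hx0 := h0.trans hx.1
          rw [abs_of_nonneg (Finset.prod_nonneg fun j _ => hx0 j)]
          exact Finset.prod_le_one (fun j _ => hx0 j) fun j _ => hx.2 j
        · exact (intOn t measurable_const _ fun _ _ => le_rfl).mono_set fun x hx => hx.1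
    _ ≤ ∫ _x in Icc t 1, ((21 / 20 : ℝ) ^ d)⁻¹ * (1 / 2) ^ d * (∏ j, (1 - t j))⁻¹ := by
        refine setIntegral_mono_set (intOn t measurable_const _ fun _ _ => le_rfl) ?_ ?_
        · exact ae_of_all _ fun _ => hc
        · exact (show typ t ⊆ Icc t 1 from fun x hx => hx.1).eventuallyLE
    _ = ((21 / 20 : ℝ) ^ d)⁻¹ * (1 / 2) ^ d := by
        have h6 := int_box hle
        rw [setIntegral_const, smul_eq_mul, mul_one] at h6
        rw [setIntegral_const, smul_eq_mul, h6]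
        field_simp

/-! ### Testing the discrepancy with bounded functions -/

/-- the discrepancy function -/
noncomputable def D (t : Fin N → Fin d → ℝ) (a : Fin N → ℝ) (x : Fin d → ℝ) : ℝ :=
  (∑ k, a k * (if ∀ j, t k j < x j then (1 : ℝ) else 0)) - ∏ j, x j

lemma measurableSet_lt' (t : Fin d → ℝ) : MeasurableSet {x : Fin d → ℝ | ∀ j, t j < x j} := by
  have : {x : Fin d → ℝ | ∀ j, t j < x j} = ⋂ j, {x : Fin d → ℝ | t j < x j} := by ext; simp
  rw [this]
  exact MeasurableSet.iInter fun j => measurableSet_lt measurable_const (measurable_pi_apply j)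

lemma measurable_ite (t : Fin d → ℝ) :
    Measurable fun x : Fin d → ℝ => (if ∀ j, t j < x j then (1 : ℝ) else 0) :=
  Measurable.ite (measurableSet_lt' t) measurable_const measurable_const

lemma measurable_prod' : Measurable fun x : Fin d → ℝ => ∏ j, x j :=
  Finset.measurable_prod _ fun j _ => measurable_pi_apply j

lemma measurable_D (t : Fin N → Fin d → ℝ) (a : Fin N → ℝ) : Measurable (D t a) :=
  (Finset.measurable_sum _ fun k _ => (measurable_ite (t k)).const_mul _).sub measurable_prod'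

lemma prod_mem {x : Fin d → ℝ} (hx : x ∈ Icc (0 : Fin d → ℝ) 1) : |∏ j, x j| ≤ 1 := by
  rw [abs_of_nonneg (Finset.prod_nonneg fun j _ => hx.1 j)]
  exact Finset.prod_le_one (fun j _ => hx.1 j) fun j _ => hx.2 j

lemma D_le (t : Fin N → Fin d → ℝ) (a : Fin N → ℝ) {x : Fin d → ℝ} (hx : x ∈ Icc (0 : Fin d → ℝ) 1) :
    |D t a x| ≤ (∑ k, |a k|) + 1 := by
  unfold D
  refine (abs_sub _ _).trans (add_le_add ?_ (prod_mem hx))
  refine (Finset.abs_sum_le_sum_abs _ _).trans (Finset.sum_le_sum fun k _ => ?_)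
  rw [abs_mul]
  refine mul_le_of_le_one_right (abs_nonneg _) ?_
  split_ifs <;> simp

lemma disc_nonneg (t : Fin N → Fin d → ℝ) (a : Fin N → ℝ) : 0 ≤ disc t a :=
  integral_nonneg fun _ => abs_nonneg _

/-- the integral of a test function over the set `t < x` -/
lemma int_ite {t : Fin d → ℝ} (h0 : 0 ≤ t) (g : (Fin d → ℝ) → ℝ) :
    ∫ x in Icc (0 : Fin d → ℝ) 1, g x * (if ∀ j, t j < x j then (1 : ℝ) else 0) =
      ∫ x in Icc t 1, g x := by
  have e : (fun x : Fin d → ℝ => g x * (if ∀ j, t j < x j then (1 : ℝ) else 0)) =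
      {x : Fin d → ℝ | ∀ j, t j < x j}.indicator g := by
    funext x
    by_cases h : ∀ j, t j < x j
    · rw [if_pos h, mul_one, indicator_of_mem (show x ∈ {x : Fin d → ℝ | ∀ j, t j < x j} from h)]
    · rw [if_neg h, mul_zero, indicator_of_notMem (show x ∉ {x : Fin d → ℝ | ∀ j, t j < x j} from h)]
  rw [e, setIntegral_indicator (measurableSet_lt' t)]
  refine setIntegral_congr_set ?_
  have h2 : Icc (0 : Fin d → ℝ) 1 ∩ {x | ∀ j, t j < x j} =
      Set.pi univ fun j => Ioc (t j) ((1 : Fin d → ℝ) j) := by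
    ext x
    simp only [mem_inter_iff, mem_Icc, mem_ofPred_eq, mem_pi, mem_univ, true_implies, mem_Ioc]
    constructor
    · rintro ⟨⟨_, h3⟩, h4⟩ j
      exact ⟨h4 j, h3 j⟩
    · intro h
      exact ⟨⟨fun j => (h0 j).trans (h j).1.le, fun j => (h j).2⟩, fun j => (h j).1⟩
  rw [h2, volume_pi]
  exact Measure.univ_pi_Ioc_ae_eq_Icc

lemma int_test {t : Fin N → Fin d → ℝ} (a : Fin N → ℝ) (h0 : ∀ k, 0 ≤ t k)
    {g : (Fin d → ℝ) → ℝ} (hg : Measurable g) (hg1 : ∀ x, |g x| ≤ 1) :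
    ∫ x in Icc (0 : Fin d → ℝ) 1, g x * D t a x =
      (∑ k, a k * ∫ x in Icc (t k) 1, g x) - ∫ x in Icc (0 : Fin d → ℝ) 1, g x * ∏ j, x j := by
  have hi1 : ∀ k, IntegrableOn (fun x => a k * (g x * (if ∀ j, t k j < x j then (1 : ℝ) else 0)))
      (Icc (0 : Fin d → ℝ) 1) := by
    intro k
    refine Integrable.const_mul ?_ _
    refine intOn 0 (hg.mul (measurable_ite (t k))) 1 fun x _ => ?_
    rw [abs_mul]
    refine mul_le_one₀ (hg1 x) (abs_nonneg _) ?_
    split_ifs <;> simp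
  have hi2 : IntegrableOn (fun x => g x * ∏ j, x j) (Icc (0 : Fin d → ℝ) 1) := by
    refine intOn 0 (hg.mul measurable_prod') 1 fun x hx => ?_
    rw [abs_mul]
    exact mul_le_one₀ (hg1 x) (abs_nonneg _) (prod_mem hx)
  have e : ∀ x, g x * D t a x =
      (∑ k, a k * (g x * (if ∀ j, t k j < x j then (1 : ℝ) else 0))) - g x * ∏ j, x j := by
    intro x
    unfold D
    rw [mul_sub, Finset.mul_sum]
    congr 1
    exact Finset.sum_congr rfl fun k _ => by ring
  simp_rw [e]
  rw [integral_sub (integrable_finsetSum _ fun k _ => hi1 k) hi2,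
    integral_finsetSum _ (fun k _ => hi1 k)]
  congr 1
  refine Finset.sum_congr rfl fun k _ => ?_
  rw [integral_const_mul, int_ite (h0 k) g]

lemma test_le (t : Fin N → Fin d → ℝ) (a : Fin N → ℝ)
    {g : (Fin d → ℝ) → ℝ} (hg : Measurable g) (hg1 : ∀ x, |g x| ≤ 1) :
    |∫ x in Icc (0 : Fin d → ℝ) 1, g x * D t a x| ≤ disc t a := by
  refine (abs_integral_le_integral_abs).trans ?_
  unfold disc
  refine setIntegral_mono_on ?_ ?_ measurableSet_Icc fun x hx => ?_
  · refine (intOn 0 (hg.mul (measurable_D t a)) ((∑ k, |a k|) + 1) fun x hx => ?_).abs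
    show |g x * D t a x| ≤ _
    rw [abs_mul]
    exact (mul_le_of_le_one_left (abs_nonneg _) (hg1 x)).trans (D_le t a hx)
  · exact (intOn 0 (measurable_D t a) _ fun x hx => D_le t a hx).abs
  · rw [abs_mul]
    exact mul_le_of_le_one_left (abs_nonneg _) (hg1 x)

/-! ### The worst case error is the discrepancy -/

lemma int_class {g : (Fin d → ℝ) → ℝ} (hg : Measurable g) (hg1 : ∀ x, |g x| ≤ 1) :
    ∫ t in Icc (0 : Fin d → ℝ) 1, ∫ x in Icc t 1, g x =
      ∫ x in Icc (0 : Fin d → ℝ) 1, g x * ∏ j, x j := by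
  have hms : MeasurableSet {p : (Fin d → ℝ) × (Fin d → ℝ) | p.1 ≤ p.2} :=
    (isClosed_le continuous_fst continuous_snd).measurableSet
  have e1 : ∀ t ∈ Icc (0 : Fin d → ℝ) 1, ∫ x in Icc t 1, g x =
      ∫ x in Icc (0 : Fin d → ℝ) 1, {p : (Fin d → ℝ) × (Fin d → ℝ) | p.1 ≤ p.2}.indicator
        (fun p => g p.2) (t, x) := by
    intro t ht
    have : (fun x => {p : (Fin d → ℝ) × (Fin d → ℝ) | p.1 ≤ p.2}.indicator (fun p => g p.2) (t, x)) =
        (Ici t).indicator g := by
      funext x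
      by_cases h : t ≤ x
      · rw [indicator_of_mem (show x ∈ Ici t from h)]
        exact indicator_of_mem (show (t, x) ∈ {p : (Fin d → ℝ) × (Fin d → ℝ) | p.1 ≤ p.2} from h) _
      · rw [indicator_of_notMem (show x ∉ Ici t from h)]
        exact indicator_of_notMem
          (show (t, x) ∉ {p : (Fin d → ℝ) × (Fin d → ℝ) | p.1 ≤ p.2} from h) _
    rw [this, setIntegral_indicator measurableSet_Ici]
    congr 2
    ext x
    simp only [mem_Icc, mem_inter_iff, mem_Ici]
    exact ⟨fun h => ⟨⟨ht.1.trans h.1, h.2⟩, h.1⟩, fun h => ⟨h.2, h.1.2⟩⟩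
  rw [setIntegral_congr_fun measurableSet_Icc e1]
  rw [integral_integral_swap]
  · refine setIntegral_congr_fun measurableSet_Icc fun x hx => ?_
    have : (fun t => {p : (Fin d → ℝ) × (Fin d → ℝ) | p.1 ≤ p.2}.indicator (fun p => g p.2) (t, x)) =
        (Iic x).indicator (fun _ => g x) := by
      funext t
      by_cases h : t ≤ x
      · rw [indicator_of_mem (show t ∈ Iic x from h)]
        exact indicator_of_mem (show (t, x) ∈ {p : (Fin d → ℝ) × (Fin d → ℝ) | p.1 ≤ p.2} from h) _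
      · rw [indicator_of_notMem (show t ∉ Iic x from h)]
        exact indicator_of_notMem
          (show (t, x) ∉ {p : (Fin d → ℝ) × (Fin d → ℝ) | p.1 ≤ p.2} from h) _
    show ∫ t in Icc (0 : Fin d → ℝ) 1, {p : (Fin d → ℝ) × (Fin d → ℝ) | p.1 ≤ p.2}.indicator
      (fun p => g p.2) (t, x) = g x * ∏ j, x j
    rw [this, setIntegral_indicator measurableSet_Iic]
    have h3 : Icc (0 : Fin d → ℝ) 1 ∩ Iic x = Icc 0 x := by
      ext t
      simp only [mem_Icc, mem_inter_iff, mem_Iic]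
      exact ⟨fun h => ⟨h.1.1, h.2⟩, fun h => ⟨⟨h.1, h.2.trans hx.2⟩, h.2⟩⟩
    rw [h3, setIntegral_const, smul_eq_mul, mul_comm]
    congr 1
    rw [Measure.real, Real.volume_Icc_pi, ENNReal.toReal_prod]
    refine Finset.prod_congr rfl fun j _ => ?_
    rw [Pi.zero_apply, sub_zero, ENNReal.toReal_ofReal (hx.1 j)]
  · have hm : Measurable (Function.uncurry fun (t x : Fin d → ℝ) =>
        {p : (Fin d → ℝ) × (Fin d → ℝ) | p.1 ≤ p.2}.indicator (fun p => g p.2) (t, x)) :=
      (hg.comp measurable_snd).indicator hms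
    refine memLp_one_iff_integrable.1 (MemLp.of_bound hm.aestronglyMeasurable 1 ?_)
    refine ae_of_all _ fun p => ?_
    show ‖{p : (Fin d → ℝ) × (Fin d → ℝ) | p.1 ≤ p.2}.indicator (fun p => g p.2) (p.1, p.2)‖ ≤ 1
    by_cases h : (p.1, p.2) ∈ {p : (Fin d → ℝ) × (Fin d → ℝ) | p.1 ≤ p.2}
    · rw [indicator_of_mem h]; exact hg1 _
    · rw [indicator_of_notMem h]; simp

lemma error_eq {t : Fin N → Fin d → ℝ} (a : Fin N → ℝ) (h0 : ∀ k, t k ∈ Icc (0 : Fin d → ℝ) 1)
    {f g : (Fin d → ℝ) → ℝ} (hg : Measurable g) (hg1 : ∀ x, |g x| ≤ 1)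
    (hf : ∀ t ∈ Icc (0 : Fin d → ℝ) 1, f t = ∫ x in Icc t 1, g x) :
    |(∫ x in Icc (0 : Fin d → ℝ) 1, f x) - ∑ k, a k * f (t k)| =
      |∫ x in Icc (0 : Fin d → ℝ) 1, g x * D t a x| := by
  rw [int_test a (fun k => (h0 k).1) hg hg1, setIntegral_congr_fun measurableSet_Icc hf,
    int_class hg hg1, ← abs_neg, neg_sub]
  congr 2
  exact Finset.sum_congr rfl fun k _ => by rw [hf _ (h0 k)]

/-- the worst case error is the `L₁`-discrepancy -/
theorem isLUB_disc (t : Fin N → Fin d → ℝ) (a : Fin N → ℝ) (h0 : ∀ k, t k ∈ Icc (0 : Fin d → ℝ) 1) :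
    IsGreatest (errors t a) (disc t a) := by
  constructor
  · set g : (Fin d → ℝ) → ℝ := fun x => if 0 ≤ D t a x then 1 else -1 with hgdef
    have hg : Measurable g := Measurable.ite (measurableSet_le measurable_const (measurable_D t a))
      measurable_const measurable_const
    have hg1 : ∀ x, |g x| ≤ 1 := by
      intro x
      rw [hgdef]
      dsimp only
      split_ifs <;> simp
    refine ⟨fun t => ∫ x in Icc t 1, g x, ⟨g, hg, hg1, fun _ _ => rfl⟩, ?_⟩
    rw [error_eq a h0 hg hg1 fun _ _ => rfl]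
    have h3 : ∀ x, g x * D t a x = |D t a x| := by
      intro x
      rw [hgdef]
      dsimp only
      split_ifs with h
      · rw [abs_of_nonneg h, one_mul]
      · rw [abs_of_neg (not_le.1 h)]; ring
    simp_rw [h3]
    exact (abs_of_nonneg (disc_nonneg t a)).symm
  · rintro e ⟨f, ⟨g, hg, hg1, hf⟩, rfl⟩
    rw [error_eq a h0 hg hg1 hf]
    exact test_le t a hg hg1

theorem wce_eq (t : Fin N → Fin d → ℝ) (a : Fin N → ℝ) (h0 : ∀ k, t k ∈ Icc (0 : Fin d → ℝ) 1) :
    wce t a = disc t a := (isLUB_disc t a h0).csSup_eq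

/-! ### The lower bound for the number of nodes -/

lemma main {t : Fin N → Fin d → ℝ} {a : Fin N → ℝ} (h0 : ∀ k j, 0 ≤ t k j ∧ t k j < 1)
    (ha : ∀ k, 0 ≤ a k) {ε : ℝ} (hr : r ^ d ≤ 1 / 2) (he : disc t a ≤ ε * (1 / 2) ^ d) :
    (1 - ε) * (1 - r ^ d) * (21 / 20) ^ d ≤ N := by
  classical
  have ht0 : ∀ k, 0 ≤ t k := fun k j => (h0 k j).1
  have ht1 : ∀ k, t k ≤ 1 := fun k j => (h0 k j).2.le
  set W : ℝ := ∑ k, a k * ∏ j, (1 - t k j) with hW
  -- the test function `-1`
  have hA : (1 / 2) ^ d - W ≤ disc t a := by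
    have h1 := test_le t a (g := fun _ => -1) measurable_const (by simp)
    rw [int_test a ht0 measurable_const (by simp)] at h1
    have h2 : ∀ k, ∫ _x in Icc (t k) 1, (-1 : ℝ) = - ∏ j, (1 - t k j) := by
      intro k
      rw [integral_neg, int_box (ht1 k)]
    have h3 : ∫ x in Icc (0 : Fin d → ℝ) 1, (-1 : ℝ) * ∏ j, x j = - (1 / 2) ^ d := by
      rw [integral_const_mul, int_prod]; ring
    rw [h3] at h1
    simp_rw [h2] at h1
    have h4 : ∑ k, a k * - ∏ j, (1 - t k j) = - W := by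
      rw [hW, ← Finset.sum_neg_distrib]
      exact Finset.sum_congr rfl fun k _ => by ring
    rw [h4] at h1
    have := (abs_le.1 h1).2
    linarith
  -- the union of the typical sets
  set S : Set (Fin d → ℝ) := ⋃ k, typ (t k) with hS
  have hSm : MeasurableSet S := MeasurableSet.iUnion fun k => measurableSet_typ _
  set g : (Fin d → ℝ) → ℝ := fun x => 1 - 2 * Sᶜ.indicator (fun _ => (1 : ℝ)) x with hg
  have hgm : Measurable g := measurable_const.sub ((measurable_const.indicator hSm.compl).const_mul _)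
  have hg1 : ∀ x, |g x| ≤ 1 := by
    intro x
    rw [hg]
    dsimp only
    by_cases h : x ∈ Sᶜ
    · rw [indicator_of_mem h]; norm_num
    · rw [indicator_of_notMem h]; norm_num
  have hB1 : ∀ k, (1 - 2 * r ^ d) * ∏ j, (1 - t k j) ≤ ∫ x in Icc (t k) 1, g x := by
    intro k
    have h1 := bad_le (ht0 k) (ht1 k) hSm (subset_iUnion (fun k => typ (t k)) k)
    rw [hg, integral_sub (intOn _ measurable_const 1 (by simp)), integral_const_mul, int_box (ht1 k)]
    · linarith
    · refine Integrable.const_mul ?_ _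
      refine intOn _ (measurable_const.indicator hSm.compl) 1 fun x _ => ?_
      by_cases h : x ∈ Sᶜ
      · rw [indicator_of_mem h]; norm_num
      · rw [indicator_of_notMem h]; norm_num
  have hB2 : ∫ x in Icc (0 : Fin d → ℝ) 1, g x * ∏ j, x j ≤
      2 * (N * (((21 / 20 : ℝ) ^ d)⁻¹ * (1 / 2) ^ d)) - (1 / 2) ^ d := by
    have hi : ∀ k, IntegrableOn ((typ (t k)).indicator fun x : Fin d → ℝ => ∏ j, x j)
        (Icc (0 : Fin d → ℝ) 1) := by
      intro k
      refine intOn 0 (measurable_prod'.indicator (measurableSet_typ _)) 1 fun x hx => ?_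
      by_cases h : x ∈ typ (t k)
      · rw [indicator_of_mem h]; exact prod_mem hx
      · rw [indicator_of_notMem h]; norm_num
    have hi1 : IntegrableOn (fun x : Fin d → ℝ => ∏ j, x j) (Icc (0 : Fin d → ℝ) 1) :=
      intOn 0 measurable_prod' 1 fun x hx => prod_mem hx
    have hi2 : IntegrableOn (fun x : Fin d → ℝ => 2 * ∑ k, (typ (t k)).indicator
        (fun x : Fin d → ℝ => ∏ j, x j) x - ∏ j, x j) (Icc (0 : Fin d → ℝ) 1) :=
      ((integrable_finsetSum _ fun k _ => hi k).const_mul 2).sub hi1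
    have hi3 : IntegrableOn (fun x : Fin d → ℝ => g x * ∏ j, x j) (Icc (0 : Fin d → ℝ) 1) := by
      refine intOn 0 (hgm.mul measurable_prod') 1 fun x hx => ?_
      show |g x * ∏ j, x j| ≤ 1
      rw [abs_mul]
      exact mul_le_one₀ (hg1 x) (abs_nonneg _) (prod_mem hx)
    calc ∫ x in Icc (0 : Fin d → ℝ) 1, g x * ∏ j, x j
        ≤ ∫ x in Icc (0 : Fin d → ℝ) 1, (2 * ∑ k, (typ (t k)).indicator
            (fun x : Fin d → ℝ => ∏ j, x j) x - ∏ j, x j) := by
          refine setIntegral_mono_on hi3 hi2 measurableSet_Icc fun x hx => ?_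
          have hp : 0 ≤ ∏ j, x j := Finset.prod_nonneg fun j _ => hx.1 j
          have hn : ∀ k, 0 ≤ (typ (t k)).indicator (fun x : Fin d → ℝ => ∏ j, x j) x := by
            intro k
            by_cases h : x ∈ typ (t k)
            · rw [indicator_of_mem h]; exact hp
            · rw [indicator_of_notMem h]
          by_cases h : x ∈ S
          · obtain ⟨k, hk⟩ := mem_iUnion.1 h
            have h1 : ∏ j, x j ≤ ∑ k, (typ (t k)).indicator (fun x : Fin d → ℝ => ∏ j, x j) x := by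
              refine le_trans (le_of_eq ?_) (Finset.single_le_sum (fun k _ => hn k) (Finset.mem_univ k))
              rw [indicator_of_mem hk]
            have h2 : g x = 1 := by
              rw [hg]
              dsimp only
              rw [indicator_of_notMem (Set.notMem_compl_iff.2 h)]
              norm_num
            rw [h2]
            linarith
          · have h2 : g x = -1 := by
              rw [hg]
              dsimp only
              rw [indicator_of_mem (show x ∈ Sᶜ from h)]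
              norm_num
            have h1 : 0 ≤ ∑ k, (typ (t k)).indicator (fun x : Fin d → ℝ => ∏ j, x j) x :=
              Finset.sum_nonneg fun k _ => hn k
            rw [h2]
            linarith
      _ = 2 * (∑ k, ∫ x in Icc (0 : Fin d → ℝ) 1, (typ (t k)).indicator
            (fun x : Fin d → ℝ => ∏ j, x j) x) - (1 / 2) ^ d := by
          rw [integral_sub ((integrable_finsetSum _ fun k _ => hi k).const_mul 2) hi1,
            integral_const_mul, integral_finsetSum _ fun k _ => hi k, int_prod]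
      _ ≤ 2 * (N * (((21 / 20 : ℝ) ^ d)⁻¹ * (1 / 2) ^ d)) - (1 / 2) ^ d := by
          have : ∑ k, ∫ x in Icc (0 : Fin d → ℝ) 1, (typ (t k)).indicator
              (fun x : Fin d → ℝ => ∏ j, x j) x ≤
              ∑ _k : Fin N, ((21 / 20 : ℝ) ^ d)⁻¹ * (1 / 2) ^ d :=
            Finset.sum_le_sum fun k _ => typ_mass (ht0 k) fun j => (h0 k j).2
          rw [Finset.sum_const, Finset.card_univ, Fintype.card_fin, nsmul_eq_mul] at this
          linarith
  have hB : (1 - 2 * r ^ d) * W - (2 * (N * (((21 / 20 : ℝ) ^ d)⁻¹ * (1 / 2) ^ d)) - (1 / 2) ^ d) ≤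
      disc t a := by
    have h1 := (abs_le.1 (test_le t a hgm hg1)).2
    rw [int_test a ht0 hgm hg1] at h1
    have h2 : (1 - 2 * r ^ d) * W ≤ ∑ k, a k * ∫ x in Icc (t k) 1, g x := by
      rw [hW, Finset.mul_sum]
      refine Finset.sum_le_sum fun k _ => ?_
      have := mul_le_mul_of_nonneg_left (hB1 k) (ha k)
      linarith
    linarith
  -- conclusion
  have hq : (0 : ℝ) < (1 / 2) ^ d := by positivity
  have hθ : (0 : ℝ) < (21 / 20) ^ d := by positivity
  have h5 : (1 - 2 * r ^ d) * ((1 - ε) * (1 / 2) ^ d) ≤ (1 - 2 * r ^ d) * W :=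
    mul_le_mul_of_nonneg_left (by linarith) (by linarith)
  have h6 : (1 - 2 * r ^ d) * (1 - ε) - 2 * (N * ((21 / 20 : ℝ) ^ d)⁻¹) + 1 ≤ ε := by
    have : ((1 - 2 * r ^ d) * (1 - ε) - 2 * (N * ((21 / 20 : ℝ) ^ d)⁻¹) + 1) * (1 / 2) ^ d ≤
        ε * (1 / 2) ^ d := by nlinarith
    exact le_of_mul_le_mul_right this hq
  have h7 : (1 - ε) * (1 - r ^ d) ≤ N * ((21 / 20 : ℝ) ^ d)⁻¹ := by nlinarith
  calc (1 - ε) * (1 - r ^ d) * (21 / 20) ^ d ≤ (N * ((21 / 20 : ℝ) ^ d)⁻¹) * (21 / 20) ^ d :=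
        mul_le_mul_of_nonneg_right h7 hθ.le
    _ = N := by rw [mul_assoc, inv_mul_cancel₀ hθ.ne', mul_one]

lemma r_pow_le (hd : 60 ≤ d) : r ^ d ≤ 1 / 2 := by
  have h1 : r ≤ 1 := Real.sqrt_le_one.2 (by norm_num)
  calc r ^ d ≤ r ^ 60 := pow_le_pow_of_le_one r_pos.le h1 hd
    _ = (r ^ 2) ^ 30 := by ring
    _ ≤ 1 / 2 := by rw [r_sq]; norm_num

/-- **Integration on `F_{d,∞}` with non-negative weights suffers from the curse of dimensionality.**

(1) The worst case error of a quadrature formula with nodes in `[0,1]^d` is its generalized `L₁`-discrepancy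
(and it is attained).

(2) For all `0 ≤ ε ≤ 1` and all `d ≥ 60`, a formula with non-negative weights and `N` nodes in `[0,1)^d` whose
worst case error is at most `ε 2^{-d}` has `N ≥ ((1 - ε) / 2) (21/20)^d`.

(3) Consequently for each `ε` in `(0,1)` there is `C > 1` with `N⁺(ε, d) ≥ C^d` for all large `d`. -/
theorem result :
    (∀ (d N : ℕ) (t : Fin N → Fin d → ℝ) (a : Fin N → ℝ), (∀ k, t k ∈ Icc (0 : Fin d → ℝ) 1) →
      IsGreatest (errors t a) (disc t a) ∧ wce t a = disc t a) ∧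
    (∀ (ε : ℝ), 0 ≤ ε → ε ≤ 1 → ∀ (d : ℕ), 60 ≤ d → ∀ (N : ℕ) (t : Fin N → Fin d → ℝ) (a : Fin N → ℝ),
      (∀ k j, 0 ≤ t k j ∧ t k j < 1) → (∀ k, 0 ≤ a k) → wce t a ≤ ε * (1 / 2) ^ d →
        (1 - ε) / 2 * (21 / 20) ^ d ≤ N) ∧
    (∀ ε : ℝ, 0 < ε → ε < 1 → ∃ C : ℝ, 1 < C ∧ ∃ D : ℕ, ∀ d ≥ D,
      ENNReal.ofReal (C ^ d) ≤ (Nplus ε d : ENNReal)) := by
  have h2 : ∀ (ε : ℝ), 0 ≤ ε → ε ≤ 1 → ∀ (d : ℕ), 60 ≤ d → ∀ (N : ℕ) (t : Fin N → Fin d → ℝ)
      (a : Fin N → ℝ), (∀ k j, 0 ≤ t k j ∧ t k j < 1) → (∀ k, 0 ≤ a k) →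
      wce t a ≤ ε * (1 / 2) ^ d → (1 - ε) / 2 * (21 / 20) ^ d ≤ N := by
    intro ε _ hε1 d hd N t a ht ha he
    rw [wce_eq t a (fun k => ⟨fun j => (ht k j).1, fun j => (ht k j).2.le⟩)] at he
    have h3 := main ht ha (r_pow_le hd) he
    refine le_trans (mul_le_mul_of_nonneg_right ?_ (by positivity)) h3
    have h4 := r_pow_le hd
    nlinarith
  refine ⟨fun d N t a h => ⟨isLUB_disc t a h, wce_eq t a h⟩, h2, ?_⟩
  intro ε h0 h1
  refine ⟨41 / 40, by norm_num, ?_⟩
  have hlim : Filter.Tendsto (fun d : ℕ => ((42 : ℝ) / 41) ^ d) Filter.atTop Filter.atTop :=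
    tendsto_pow_atTop_atTop_of_one_lt (by norm_num)
  obtain ⟨D, hD⟩ := (Filter.eventually_atTop.1 (hlim.eventually_ge_atTop (2 / (1 - ε))))
  refine ⟨max D 60, fun d hd => ?_⟩
  have h3 := hD d (le_trans (le_max_left _ _) hd)
  have h4 : 60 ≤ d := le_trans (le_max_right _ _) hd
  have h5 : (41 / 40 : ℝ) ^ d ≤ (1 - ε) / 2 * (21 / 20) ^ d := by
    have e : (21 / 20 : ℝ) ^ d = (42 / 41) ^ d * (41 / 40) ^ d := by
      rw [← mul_pow]; norm_num
    rw [e, ← mul_assoc]
    refine le_mul_of_one_le_left (by positivity) ?_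
    have h6 : 0 < 1 - ε := by linarith
    rw [div_le_iff₀ h6] at h3
    linarith
  unfold Nplus
  have key : ∀ N : ℕ, (∃ (t : Fin N → Fin d → ℝ) (a : Fin N → ℝ), (∀ k j, 0 ≤ t k j ∧ t k j < 1) ∧
      (∀ k, 0 ≤ a k) ∧ wce t a ≤ ε * (1 / 2) ^ d) → (41 / 40 : ℝ) ^ d ≤ N := by
    rintro N ⟨t, a, ht, ha, he⟩
    exact h5.trans (h2 ε h0.le h1.le d h4 N t a ht ha he)
  have hceil : ((⌈(41 / 40 : ℝ) ^ d⌉₊ : ℕ) : ℕ∞) ≤ ⨅ (N : ℕ) (_ : ∃ (t : Fin N → Fin d → ℝ)
      (a : Fin N → ℝ), (∀ k j, 0 ≤ t k j ∧ t k j < 1) ∧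
      (∀ k, 0 ≤ a k) ∧ wce t a ≤ ε * (1 / 2) ^ d), (N : ℕ∞) := by
    refine le_iInf fun N => le_iInf fun h => ?_
    exact_mod_cast Nat.ceil_le.2 (key N h)
  calc ENNReal.ofReal ((41 / 40) ^ d) ≤ ENNReal.ofReal (⌈(41 / 40 : ℝ) ^ d⌉₊ : ℝ) :=
        ENNReal.ofReal_le_ofReal (Nat.le_ceil _)
    _ = (((⌈(41 / 40 : ℝ) ^ d⌉₊ : ℕ) : ℕ∞) : ENNReal) := by
        rw [ENNReal.ofReal_natCast]; rfl
    _ ≤ _ := by exact_mod_cast hceil

end Pool.Agent.Results.MP_2335a4_an.CurseNonnegH80
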